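import Pool.Agent.H65.DTW.Finite

/-!
# One-leg Donaldson-Thomas and stable pairs vertices on the walls `s_i + s_j = 0`

For every cross section `lam` of the leg (along the third axis), every wall `w` and every
torus fixed point of the Hilbert scheme side (`IsDT`) or of the stable pairs side (`IsPT`), the
localization weight is regular along the wall; for every number `n` of boxes, the sums over all
fixed points with `n` boxes of weight times an arbitrary function of the restricted character of
the configuration (in particular arbitrary products of descendents) agree.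
-/

namespace Pool.Agent.Results.MP_421688_ag.WallVertex

open DTWall

theorem result (w : Wall) (lam : YoungDiagram) :
    (∀ S : Finset Mono, IsDT lam S ∨ IsPT lam S → Regular w (vertexCh lam S)) ∧
    ∀ n : ℕ,
      {S : Finset Mono | IsDT lam S ∧ S.card = n}.Finite ∧
      {S : Finset Mono | IsPT lam S ∧ S.card = n}.Finite ∧
      ∀ (K : Type) [Field K] (φ : ℤ × ℤ → K), φ 0 = 0 → (∀ r, r ≠ 0 → φ r ≠ 0) →
      ∀ F : AddMonoidAlgebra ℤ (ℤ × ℤ) → K,
        ∑ᶠ S ∈ {S : Finset Mono | IsDT lam S ∧ S.card = n},
            weight w φ (vertexCh lam S) * F (w.restrict (boxCh S))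
          = ∑ᶠ S ∈ {S : Finset Mono | IsPT lam S ∧ S.card = n},
            weight w φ (vertexCh lam S) * F (w.restrict (boxCh S)) := by
  refine ⟨?_, ?_⟩
  · rintro S (h | h)
    · cases w
      · exact regular_DT12 h
      · exact regular_DT13 h
      · exact regular_DT23 h
    · cases w
      · exact regular_PT12 h
      · exact regular_PT13 h
      · exact regular_PT23 h
  · intro n
    refine ⟨finite_DT lam n, finite_PT lam n, ?_⟩
    intro K _ φ h0 hg F
    cases w
    · exact sum_eq_12 lam n h0 F
    · exact sum_eq_13 lam n h0 hg F
    · exact sum_eq_23 lam n h0 hg F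

end Pool.Agent.Results.MP_421688_ag.WallVertex
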